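import Mathlib

/-!
# A subshift with an alphabet metric whose spanning growth rate does not exist
-/

namespace Pool.Agent.Results.MP_6f7bab_an.SpanningRateFails

open Filter Topology Set

section Defs

variable {A : Type}

/-- The shift. -/
def shift (x : ℕ → A) : ℕ → A := fun n => x (n + 1)

/-- One-sided subshifts. -/
def IsSubshift [TopologicalSpace A] (X : Set (ℕ → A)) : Prop :=
  X.Nonempty ∧ IsClosed X ∧ ∀ x ∈ X, shift x ∈ X

/-- `d` is a metric on the set `S`. -/
def IsMetricOn {B : Type} (d : B → B → ℝ) (S : Set B) : Prop :=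
  (∀ x ∈ S, ∀ y ∈ S, 0 ≤ d x y) ∧ (∀ x ∈ S, ∀ y ∈ S, d x y = 0 ↔ x = y) ∧
    (∀ x ∈ S, ∀ y ∈ S, d x y = d y x) ∧
    ∀ x ∈ S, ∀ y ∈ S, ∀ z ∈ S, d x z ≤ d x y + d y z

/-- The first index where `x` and `y` differ. -/
noncomputable def Delta (x y : ℕ → A) : ℕ := sInf {n | x n ≠ y n}

open Classical in
/-- `D(x,y) = d(x_Δ, y_Δ) k^{-Δ}`, `D(x,x) = 0`. -/
noncomputable def D (d : A → A → ℝ) (k : ℕ) (x y : ℕ → A) : ℝ :=
  if x = y then 0 else d (x (Delta x y)) (y (Delta x y)) * ((k : ℝ)⁻¹) ^ Delta x y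

/-- `D_T(x,y) = max_{0 ≤ t < T} D(σ^t x, σ^t y)`. -/
noncomputable def DT (d : A → A → ℝ) (k T : ℕ) (x y : ℕ → A) : ℝ :=
  ⨆ t : Fin T, D d k (shift^[t] x) (shift^[t] y)

/-- `span(X, ε, D_T)`: the least size of a spanning set. -/
noncomputable def span (X : Set (ℕ → A)) (d : A → A → ℝ) (k : ℕ) (ε : ℝ) (T : ℕ) : ℕ :=
  sInf {m | ∃ S : Finset (ℕ → A), (S : Set (ℕ → A)) ⊆ X ∧ S.card = m ∧
    ∀ x ∈ X, ∃ y ∈ S, DT d k T x y ≤ ε}

/-- The rate `ln span(X, ε, D_T) / T`. -/
noncomputable def rate (X : Set (ℕ → A)) (d : A → A → ℝ) (k : ℕ) (ε : ℝ) (T : ℕ) : EReal :=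
  ((Real.log (span X d k ε T) / T : ℝ) : EReal)

end Defs

/-! ### The example -/

/-- The metric on the alphabet `{0, 1, 2, 3, 4} = {0, e, a, b, c}`: `d(a,b) = d(b,c) = 1`, all
other distances between distinct letters are `2`. -/
noncomputable def d (x y : Fin 5) : ℝ :=
  if x = y then 0 else if (x = 3 ∧ (y = 2 ∨ y = 4)) ∨ (y = 3 ∧ (x = 2 ∨ x = 4)) then 1 else 2

/-- The lengths. -/
def τ : ℕ → ℕ
  | 0 => 1
  | i + 1 => 2 ^ (2 * τ i)

/-- Information words `⋯ 0 0 e^j u 0 0 ⋯` with `u ∈ {a,c}^{2τ_j}` starting at `0`. -/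
def gI (j : ℕ) (u : ℕ → Bool) (n : ℤ) : Fin 5 :=
  if n < -j then 0 else if n < 0 then 1 else if n < 2 * τ j then
    (if u n.toNat = true then 2 else 4) else 0

/-- Covering words `⋯ 0 0 e^j b^{τ_j} 0 0 ⋯`. -/
def gC (j : ℕ) (n : ℤ) : Fin 5 :=
  if n < -j then 0 else if n < 0 then 1 else if n < τ j then 3 else 0

/-- The generating two-sided sequences. -/
def Gen : Set (ℤ → Fin 5) := {g | (∃ j u, g = gI j u) ∨ ∃ j, g = gC j}

/-- The subshift. -/
def X : Set (ℕ → Fin 5) := {x | ∀ N : ℕ, ∃ g ∈ Gen, ∃ s : ℤ, ∀ n < N, x n = g (n + s)}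

lemma d_nonneg (x y : Fin 5) : 0 ≤ d x y := by
  unfold d; split_ifs <;> norm_num

lemma d_le (x y : Fin 5) : d x y ≤ 2 := by
  unfold d; split_ifs <;> norm_num

lemma d_ge {x y : Fin 5} (h : x ≠ y) : 1 ≤ d x y := by
  unfold d; rw [if_neg h]; split_ifs <;> norm_num

lemma d_self (x : Fin 5) : d x x = 0 := if_pos rfl

lemma d_comm (x y : Fin 5) : d x y = d y x := by
  unfold d
  simp only [eq_comm (a := x) (b := y), or_comm]

lemma metric_d : IsMetricOn d univ := by
  refine ⟨fun x _ y _ => d_nonneg x y, fun x _ y _ => ⟨fun h => ?_, fun h => h ▸ d_self x⟩,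
    fun x _ y _ => d_comm x y, fun x _ y _ z _ => ?_⟩
  · by_contra hne
    have := d_ge hne
    linarith
  · by_cases h1 : x = y
    · rw [h1, d_self]; linarith
    by_cases h2 : y = z
    · rw [h2, d_self]; linarith
    have := d_ge h1
    have := d_ge h2
    have := d_le x z
    linarith

section DD

variable {A : Type}

lemma Delta_spec {x y : ℕ → A} (h : x ≠ y) : x (Delta x y) ≠ y (Delta x y) := by
  obtain ⟨n, hn⟩ := Function.ne_iff.1 h
  exact Nat.sInf_mem (s := {n | x n ≠ y n}) ⟨n, hn⟩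

lemma eq_of_lt_Delta {x y : ℕ → A} {n : ℕ} (h : n < Delta x y) : x n = y n := by
  by_contra hne
  exact absurd (Nat.sInf_le (s := {n | x n ≠ y n}) hne) (not_le.2 h)

lemma Delta_eq {x y : ℕ → A} {n : ℕ} (h : x n ≠ y n) (h' : ∀ m < n, x m = y m) :
    Delta x y = n := by
  apply le_antisymm (Nat.sInf_le h)
  by_contra hlt
  push Not at hlt
  exact Delta_spec (Function.ne_iff.2 ⟨n, h⟩) (h' _ hlt)

lemma Delta_comm (x y : ℕ → A) : Delta x y = Delta y x := by
  unfold Delta
  congr 1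
  ext n
  exact ne_comm

lemma iterate_shift (x : ℕ → A) (t n : ℕ) : (shift^[t] x) n = x (n + t) := by
  induction t generalizing x with
  | zero => rfl
  | succ t ih =>
    rw [Function.iterate_succ_apply, ih]
    show x (n + t + 1) = _
    rfl

end DD

lemma metric_D (S : Set (ℕ → Fin 5)) : IsMetricOn (D d 2) S := by
  have hnn : ∀ x y, 0 ≤ D d 2 x y := by
    intro x y
    unfold D
    split_ifs
    · exact le_rfl
    · exact mul_nonneg (d_nonneg _ _) (by positivity)
  refine ⟨fun x _ y _ => hnn x y, fun x _ y _ => ⟨fun h => ?_, fun h => if_pos h⟩,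
    fun x _ y _ => ?_, fun x _ y _ z _ => ?_⟩
  · by_contra hne
    unfold D at h
    rw [if_neg hne] at h
    have h1 := d_ge (Delta_spec hne)
    have h2 : (0 : ℝ) < (((2 : ℕ) : ℝ)⁻¹) ^ Delta x y := by positivity
    have := mul_pos (lt_of_lt_of_le one_pos h1) h2
    linarith
  · unfold D
    rw [Delta_comm x y, d_comm]
    by_cases h : x = y
    · rw [if_pos h, if_pos h.symm]
    · rw [if_neg h, if_neg (Ne.symm h)]
  · by_cases hxz : x = z
    · rw [hxz]
      have : D d 2 z z = 0 := if_pos rfl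
      rw [this]
      exact add_nonneg (hnn _ _) (hnn _ _)
    by_cases hxy : x = y
    · rw [hxy]
      have : D d 2 y y = 0 := if_pos rfl
      rw [this, zero_add]
    by_cases hyz : y = z
    · rw [hyz]
      have : D d 2 z z = 0 := if_pos rfl
      rw [this, add_zero]
    rcases lt_trichotomy (Delta x y) (Delta y z) with h | h | h
    · have h1 : Delta x z = Delta x y := by
        apply Delta_eq
        · rw [← eq_of_lt_Delta h]
          exact Delta_spec hxy
        · intro m hm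
          rw [eq_of_lt_Delta hm, eq_of_lt_Delta (hm.trans h)]
      have h2 : D d 2 x z = D d 2 x y := by
        unfold D
        rw [if_neg hxz, if_neg hxy, h1, eq_of_lt_Delta h]
      rw [h2]
      linarith [hnn y z]
    · have hle : Delta x y ≤ Delta x z := by
        by_contra hlt
        push Not at hlt
        have h3 := Delta_spec hxz
        exact h3 ((eq_of_lt_Delta hlt).trans (eq_of_lt_Delta (h ▸ hlt)))
      rcases eq_or_lt_of_le hle with h4 | h4
      · unfold D
        rw [if_neg hxz, if_neg hxy, if_neg hyz, ← h, ← h4, ← add_mul]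
        apply mul_le_mul_of_nonneg_right _ (by positivity)
        exact metric_d.2.2.2 _ trivial _ trivial _ trivial
      · have h5 : D d 2 x z ≤ D d 2 x y := by
          unfold D
          rw [if_neg hxz, if_neg hxy]
          have h6 := d_ge (Delta_spec hxy)
          have h7 := d_le (x (Delta x z)) (z (Delta x z))
          have h8 : (((2 : ℕ) : ℝ)⁻¹) ^ Delta x z ≤ (((2 : ℕ) : ℝ)⁻¹) ^ (Delta x y + 1) :=
            pow_le_pow_of_le_one (by norm_num) (by norm_num) h4
          calc d (x (Delta x z)) (z (Delta x z)) * (((2 : ℕ) : ℝ)⁻¹) ^ Delta x z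
              ≤ 2 * (((2 : ℕ) : ℝ)⁻¹) ^ (Delta x y + 1) :=
                mul_le_mul h7 h8 (by positivity) (by norm_num)
            _ = 1 * (((2 : ℕ) : ℝ)⁻¹) ^ (Delta x y) := by
                rw [pow_succ]; push_cast; ring
            _ ≤ _ := mul_le_mul_of_nonneg_right h6 (by positivity)
        linarith [hnn y z]
    · have h1 : Delta x z = Delta y z := by
        apply Delta_eq
        · rw [eq_of_lt_Delta h]
          exact Delta_spec hyz
        · intro m hm
          rw [eq_of_lt_Delta (hm.trans h), eq_of_lt_Delta hm]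
      have h2 : D d 2 x z = D d 2 y z := by
        unfold D
        rw [if_neg hxz, if_neg hyz, h1, eq_of_lt_Delta h]
      rw [h2]
      linarith [hnn x y]

lemma D_le_one_iff (x y : ℕ → Fin 5) : D d 2 x y ≤ 1 ↔ d (x 0) (y 0) ≤ 1 := by
  unfold D
  by_cases hxy : x = y
  · rw [if_pos hxy, hxy, d_self]
  · rw [if_neg hxy]
    rcases Nat.eq_zero_or_pos (Delta x y) with h | h
    · rw [h, pow_zero, mul_one]
    · have h0 : x 0 = y 0 := eq_of_lt_Delta h
      rw [h0, d_self]
      refine ⟨fun _ => by norm_num, fun _ => ?_⟩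
      have h7 := d_le (x (Delta x y)) (y (Delta x y))
      have h8 : (((2 : ℕ) : ℝ)⁻¹) ^ Delta x y ≤ (((2 : ℕ) : ℝ)⁻¹) ^ 1 :=
        pow_le_pow_of_le_one (by norm_num) (by norm_num) h
      calc d (x (Delta x y)) (y (Delta x y)) * (((2 : ℕ) : ℝ)⁻¹) ^ Delta x y
          ≤ 2 * (((2 : ℕ) : ℝ)⁻¹) ^ 1 := mul_le_mul h7 h8 (by positivity) (by norm_num)
        _ = 1 := by push_cast; norm_num

lemma DT_le_one_iff {T : ℕ} (hT : 0 < T) (x y : ℕ → Fin 5) :
    DT d 2 T x y ≤ 1 ↔ ∀ t < T, d (x t) (y t) ≤ 1 := by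
  have : Nonempty (Fin T) := ⟨⟨0, hT⟩⟩
  have h1 : ∀ t : ℕ, D d 2 (shift^[t] x) (shift^[t] y) ≤ 1 ↔ d (x t) (y t) ≤ 1 := by
    intro t
    rw [D_le_one_iff, iterate_shift, iterate_shift, zero_add]
  unfold DT
  constructor
  · intro h t ht
    rw [← h1]
    exact (le_ciSup (Set.finite_range fun t : Fin T =>
      D d 2 (shift^[t] x) (shift^[t] y)).bddAbove ⟨t, ht⟩).trans h
  · intro h
    exact ciSup_le fun t => (h1 t).2 (h t t.2)

/-! ### The subshift -/

lemma mem_X_of_gen {g : ℤ → Fin 5} (hg : g ∈ Gen) (s : ℤ) : (fun n : ℕ => g (n + s)) ∈ X :=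
  fun _ => ⟨g, hg, s, fun _ _ => rfl⟩

lemma isSubshift_X : IsSubshift X := by
  refine ⟨⟨_, mem_X_of_gen (Or.inr ⟨0, rfl⟩) 0⟩, ?_, ?_⟩
  · rw [← isOpen_compl_iff, isOpen_iff_mem_nhds]
    intro x hx
    have : ∃ N : ℕ, ¬ ∃ g ∈ Gen, ∃ s : ℤ, ∀ n < N, x n = g (n + s) := by
      by_contra hcon
      push Not at hcon
      exact hx hcon
    obtain ⟨N, hN⟩ := this
    have hU : IsOpen (Set.pi (Finset.range N : Set ℕ) fun n => ({x n} : Set (Fin 5))) :=
      isOpen_set_pi (Finset.finite_toSet _) fun _ _ => isOpen_discrete _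
    refine Filter.mem_of_superset (hU.mem_nhds fun n _ => rfl) ?_
    intro y hy hyX
    obtain ⟨g, hg, s, hs⟩ := hyX N
    refine hN ⟨g, hg, s, fun n hn => ?_⟩
    have h1 : y n = x n := hy n (by simpa using hn)
    rw [← h1]
    exact hs n hn
  · intro x hx N
    obtain ⟨g, hg, s, hs⟩ := hx (N + 1)
    refine ⟨g, hg, s + 1, fun n hn => ?_⟩
    have := hs (n + 1) (by omega)
    show x (n + 1) = _
    rw [this]
    congr 1
    push_cast
    ring

lemma τ_pos (i : ℕ) : 0 < τ i := by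
  cases i with
  | zero => exact Nat.one_pos
  | succ i => exact Nat.two_pow_pos _

lemma τ_lt_succ (i : ℕ) : 2 * τ i < τ (i + 1) := Nat.lt_two_pow_self

lemma τ_mono : Monotone τ := monotone_nat_of_le_succ fun i => by
  have := τ_lt_succ i
  omega

lemma le_τ (i : ℕ) : i + 1 ≤ τ i := by
  induction i with
  | zero => exact le_rfl
  | succ i ih =>
    have := τ_lt_succ i
    omega

/-- The words used as centers. -/
def F (T Mx : ℕ) (c : (Fin (T + 1) × Fin (T + 1) × Fin (T + 1)) × Option (Fin Mx → Bool)) (n : ℕ) :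
    Fin 5 :=
  if n < c.1.1 then 0 else if n < c.1.2.1 then 1 else if n < c.1.2.2 then
    (match c.2 with
      | none => 3
      | some v => if h : n - c.1.2.1 < Mx then (if v ⟨n - c.1.2.1, h⟩ = true then 2 else 4) else 3)
    else 0

/-- Clamping to `[0, T]`. -/
def clamp (T : ℕ) (z : ℤ) : Fin (T + 1) := ⟨(min z T).toNat, by omega⟩

lemma lt_clamp {T n : ℕ} (hn : n < T) (z : ℤ) : n < (clamp T z : ℕ) ↔ (n : ℤ) < z := by
  simp only [clamp]
  omega

lemma gI_left {j : ℕ} {u : ℕ → Bool} {n : ℤ} (h : n < -j) : gI j u n = 0 := if_pos h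

lemma gI_e {j : ℕ} {u : ℕ → Bool} {n : ℤ} (h : -(j : ℤ) ≤ n) (h' : n < 0) : gI j u n = 1 := by
  unfold gI
  rw [if_neg (not_lt.2 h), if_pos h']

lemma gI_u {j : ℕ} {u : ℕ → Bool} {n : ℤ} (h : 0 ≤ n) (h' : n < 2 * τ j) :
    gI j u n = if u n.toNat = true then 2 else 4 := by
  unfold gI
  have h1 : ¬ n < -(j : ℤ) := by omega
  rw [if_neg h1, if_neg (not_lt.2 h), if_pos h']

lemma gI_right {j : ℕ} {u : ℕ → Bool} {n : ℤ} (h : 2 * τ j ≤ n) : gI j u n = 0 := by
  unfold gI
  have h1 : ¬ n < -(j : ℤ) := by omega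
  have h2 : ¬ n < 0 := by omega
  rw [if_neg h1, if_neg h2, if_neg (not_lt.2 h)]

lemma gC_left {j : ℕ} {n : ℤ} (h : n < -j) : gC j n = 0 := if_pos h

lemma gC_e {j : ℕ} {n : ℤ} (h : -(j : ℤ) ≤ n) (h' : n < 0) : gC j n = 1 := by
  unfold gC
  rw [if_neg (not_lt.2 h), if_pos h']

lemma gC_b {j : ℕ} {n : ℤ} (h : 0 ≤ n) (h' : n < τ j) : gC j n = 3 := by
  unfold gC
  have h1 : ¬ n < -(j : ℤ) := by omega
  rw [if_neg h1, if_neg (not_lt.2 h), if_pos h']

lemma gC_right {j : ℕ} {n : ℤ} (h : τ j ≤ n) : gC j n = 0 := by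
  unfold gC
  have h1 : ¬ n < -(j : ℤ) := by omega
  have h2 : ¬ n < 0 := by omega
  rw [if_neg h1, if_neg h2, if_neg (not_lt.2 h)]

lemma exists_center (i : ℕ) (x : ℕ → Fin 5) (hx : x ∈ X) :
    ∃ y ∈ X, (∀ t < τ (i + 1), d (x t) (y t) ≤ 1) ∧
      ∃ c, ∀ n < τ (i + 1), y n = F (τ (i + 1)) (2 * τ i) c n := by
  set T := τ (i + 1) with hT
  obtain ⟨g, hg, s, hs⟩ := hx T
  -- covering words
  have hcov : ∀ j (s : ℤ), ∃ c, ∀ n < T, gC j (n + s) = F T (2 * τ i) c n := by
    intro j s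
    refine ⟨((clamp T (-j - s), clamp T (-s), clamp T (τ j - s)), none), fun n hn => ?_⟩
    simp only [F, gC, lt_clamp hn]
    have e1 : ((n : ℤ) < -j - s) = ((n : ℤ) + s < -j) := by
      rw [eq_iff_iff]; omega
    have e2 : ((n : ℤ) < -s) = ((n : ℤ) + s < 0) := by
      rw [eq_iff_iff]; omega
    have e3 : ((n : ℤ) < τ j - s) = ((n : ℤ) + s < τ j) := by
      rw [eq_iff_iff]; omega
    simp only [e1, e2, e3]
  rcases hg with ⟨j, u, rfl⟩ | ⟨j, rfl⟩
  · rcases Nat.lt_or_ge i j with hij | hij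
    · -- long information words
      have hTj : T ≤ τ j := τ_mono hij
      have hlet : ∀ b : Bool, d (if b = true then 2 else 4) 3 ≤ 1 := by
        intro b
        cases b <;> simp [d]
      have main : ∀ s' : ℤ, (∀ n < T, d (gI j u (n + s)) (gC j (n + s')) ≤ 1) →
          ∃ y ∈ X, (∀ t < T, d (x t) (y t) ≤ 1) ∧ ∃ c, ∀ n < T, y n = F T (2 * τ i) c n := by
        intro s' h
        obtain ⟨c, hc⟩ := hcov j s'
        refine ⟨fun n => gC j (n + s'), mem_X_of_gen (Or.inr ⟨j, rfl⟩) s', fun t ht => ?_, c, hc⟩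
        rw [hs t ht]
        exact h t ht
      by_cases h1 : s + T ≤ τ j
      · apply main s
        intro n hn
        rcases lt_or_ge ((n : ℤ) + s) (-j) with c1 | c1
        · rw [gI_left c1, gC_left c1, d_self]; norm_num
        rcases lt_or_ge ((n : ℤ) + s) 0 with c2 | c2
        · rw [gI_e c1 c2, gC_e c1 c2, d_self]; norm_num
        rw [gI_u c2 (by omega), gC_b c2 (by omega)]
        exact hlet _
      by_cases h2 : s + T ≤ 2 * τ j
      · apply main 0
        intro n hn
        rw [gI_u (by omega) (by omega), gC_b (by omega) (by omega)]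
        exact hlet _
      · apply main (s - τ j)
        intro n hn
        rcases lt_or_ge ((n : ℤ) + s) (2 * τ j) with c3 | c3
        · rw [gI_u (by omega) (by omega), gC_b (by omega) (by omega)]
          exact hlet _
        · rw [gI_right c3, gC_right (by omega), d_self]; norm_num
    · -- short information words
      have hj : τ j ≤ τ i := τ_mono hij
      refine ⟨fun n => gI j u (n + s), mem_X_of_gen (Or.inl ⟨j, u, rfl⟩) s, fun t ht => ?_,
        ((clamp T (-j - s), clamp T (-s), clamp T (2 * τ j - s)),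
          some fun m => u ((clamp T (-s) : ℕ) + (m : ℕ) + s : ℤ).toNat), fun n hn => ?_⟩
      · rw [hs t ht, d_self]; norm_num
      · simp only [F, lt_clamp hn]
        have e1 : ((n : ℤ) < -j - s) = ((n : ℤ) + s < -j) := by
          rw [eq_iff_iff]; omega
        have e2 : ((n : ℤ) < -s) = ((n : ℤ) + s < 0) := by
          rw [eq_iff_iff]; omega
        have e3 : ((n : ℤ) < 2 * τ j - s) = ((n : ℤ) + s < 2 * τ j) := by
          rw [eq_iff_iff]; omega
        simp only [e1, e2, e3]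
        rcases lt_or_ge ((n : ℤ) + s) (-j) with c1 | c1
        · rw [gI_left c1, if_pos c1]
        rw [if_neg (not_lt.2 c1)]
        rcases lt_or_ge ((n : ℤ) + s) 0 with c2 | c2
        · rw [gI_e c1 c2, if_pos c2]
        rw [if_neg (not_lt.2 c2)]
        rcases lt_or_ge ((n : ℤ) + s) (2 * τ j) with c3 | c3
        · rw [gI_u c2 c3, if_pos c3]
          have hcl : ((clamp T (-s) : ℕ) : ℤ) = max (min (-s) T) 0 := by
            simp only [clamp]
            omega
          have c4 : n - (clamp T (-s) : ℕ) < 2 * τ i := by omega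
          rw [dif_pos c4]
          have c5 : (((clamp T (-s) : ℕ) : ℤ) + ((n - (clamp T (-s) : ℕ) : ℕ) : ℤ) + s) =
              (n : ℤ) + s := by omega
          simp only [c5]
        · rw [gI_right c3, if_neg (not_lt.2 c3)]
  · obtain ⟨c, hc⟩ := hcov j s
    refine ⟨fun n => gC j (n + s), mem_X_of_gen (Or.inr ⟨j, rfl⟩) s, fun t ht => ?_, c, hc⟩
    rw [hs t ht, d_self]; norm_num

/-- A set with a point of `X` for each prefix spans. -/
lemma exists_spanning {Λ : Type} [Fintype Λ] (T : ℕ) (hT : 0 < T) (f : Λ → ℕ → Fin 5)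
    (h : ∀ x ∈ X, ∃ y ∈ X, (∀ t < T, d (x t) (y t) ≤ 1) ∧ ∃ c, ∀ n < T, y n = f c n) :
    ∃ S : Finset (ℕ → Fin 5), (S : Set (ℕ → Fin 5)) ⊆ X ∧ S.card ≤ Fintype.card Λ ∧
      ∀ x ∈ X, ∃ y ∈ S, DT d 2 T x y ≤ 1 := by
  classical
  obtain ⟨x₀, hx₀⟩ := isSubshift_X.1
  let r : Λ → ℕ → Fin 5 := fun c =>
    if hc : ∃ y ∈ X, ∀ n < T, y n = f c n then hc.choose else x₀
  refine ⟨Finset.univ.image r, ?_, Finset.card_image_le, ?_⟩
  · intro y hy
    rw [Finset.coe_image] at hy
    obtain ⟨c, -, rfl⟩ := hy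
    simp only [r]
    split_ifs with hc
    · exact hc.choose_spec.1
    · exact hx₀
  · intro x hx
    obtain ⟨y, hy, hxy, c, hc⟩ := h x hx
    have hc' : ∃ y ∈ X, ∀ n < T, y n = f c n := ⟨y, hy, hc⟩
    refine ⟨r c, Finset.mem_image_of_mem _ (Finset.mem_univ c), ?_⟩
    rw [DT_le_one_iff hT]
    intro t ht
    have : r c t = y t := by
      simp only [r]
      rw [dif_pos hc', hc'.choose_spec.2 t ht, hc t ht]
    rw [this]
    exact hxy t ht

lemma span_le (i : ℕ) : span X d 2 1 (τ (i + 1)) ≤ (τ (i + 1) + 1) ^ 4 := by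
  obtain ⟨S, hS, hcard, hsp⟩ := exists_spanning (τ (i + 1)) (τ_pos _) _ (exists_center i)
  have h1 : span X d 2 1 (τ (i + 1)) ≤ S.card := by
    unfold span
    exact Nat.sInf_le ⟨S, hS, rfl, hsp⟩
  refine h1.trans (hcard.trans ?_)
  simp only [Fintype.card_prod, Fintype.card_fin, Fintype.card_option, Fintype.card_fun,
    Fintype.card_bool]
  have : 2 ^ (2 * τ i) = τ (i + 1) := rfl
  rw [this]
  apply le_of_eq
  ring

lemma span_mem (T : ℕ) (hT : 0 < T) : ∃ S : Finset (ℕ → Fin 5), (S : Set (ℕ → Fin 5)) ⊆ X ∧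
    S.card = span X d 2 1 T ∧ ∀ x ∈ X, ∃ y ∈ S, DT d 2 T x y ≤ 1 := by
  have hne : {m | ∃ S : Finset (ℕ → Fin 5), (S : Set (ℕ → Fin 5)) ⊆ X ∧ S.card = m ∧
    ∀ x ∈ X, ∃ y ∈ S, DT d 2 T x y ≤ 1}.Nonempty := by
    let f : (Fin T → Fin 5) → ℕ → Fin 5 := fun c n => if h : n < T then c ⟨n, h⟩ else 0
    have hf : ∀ x ∈ X, ∃ y ∈ X, (∀ t < T, d (x t) (y t) ≤ 1) ∧ ∃ c, ∀ n < T, y n = f c n := by
      intro x hx
      refine ⟨x, hx, fun t _ => by rw [d_self]; norm_num, fun n => x n, fun n hn => ?_⟩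
      simp only [f]
      rw [dif_pos hn]
    obtain ⟨S, hS, -, hsp⟩ := exists_spanning T hT f hf
    exact ⟨_, S, hS, rfl, hsp⟩
  exact Nat.sInf_mem hne

/-- Uniqueness of the shape of the points close to an information word. -/
lemma close_unique {i : ℕ} (hi : 0 < i) {u : ℕ → Bool} {y : ℕ → Fin 5} (hy : y ∈ X)
    (h : ∀ t < 1 + i + 2 * τ i, d (gI i u (t + (-i - 1))) (y t) ≤ 1) :
    ∀ m < 2 * τ i, y (1 + i + m) = if u m = true then 2 else 4 := by
  set T := 1 + i + 2 * τ i with hT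
  have hτ := τ_pos i
  obtain ⟨g, hg, s, hs⟩ := hy T
  have hy0 : y 0 = 0 := by
    have h1 := h 0 (by omega)
    rw [gI_left (by push_cast; omega)] at h1
    have h2 : ∀ z : Fin 5, d 0 z ≤ 1 → z = 0 := by
      intro z hz
      by_contra hne
      unfold d at hz
      rw [if_neg (Ne.symm hne), if_neg (by simp)] at hz
      norm_num at hz
    exact h2 _ h1
  have hye : ∀ t, 1 ≤ t → t ≤ i → y t = 1 := by
    intro t ht1 ht2
    have h1 := h t (by omega)
    rw [gI_e (by omega) (by omega)] at h1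
    have h2 : ∀ z : Fin 5, d 1 z ≤ 1 → z = 1 := by
      intro z hz
      by_contra hne
      unfold d at hz
      rw [if_neg (Ne.symm hne), if_neg (by simp)] at hz
      norm_num at hz
    exact h2 _ h1
  have hyu : ∀ m < 2 * τ i, d (if u m = true then 2 else 4) (y (1 + i + m)) ≤ 1 := by
    intro m hm
    have h1 := h (1 + i + m) (by omega)
    rw [gI_u (by push_cast; omega) (by push_cast; omega)] at h1
    have h2 : (((1 + i + m : ℕ) : ℤ) + (-i - 1)).toNat = m := by omega
    rwa [h2] at h1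
  have hlet : ∀ b : Bool, ∀ z : Fin 5, d (if b = true then 2 else 4) z ≤ 1 → z ≠ 0 ∧ z ≠ 1 := by
    intro b z hz
    constructor
    · rintro rfl
      cases b <;> simp [d] at hz
    · rintro rfl
      cases b <;> simp [d] at hz
  -- locate the marker
  have hg1 : g s = 0 := by
    have := hs 0 (by omega)
    rw [hy0] at this
    simpa using this.symm
  have hge : ∀ t : ℕ, 1 ≤ t → t ≤ i → g (t + s) = 1 := by
    intro t h1 h2
    rw [← hs t (by omega)]
    exact hye t h1 h2
  have hgu : g ((1 + i : ℕ) + s) ≠ 0 ∧ g ((1 + i : ℕ) + s) ≠ 1 := by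
    rw [← hs (1 + i) (by omega)]
    exact hlet _ _ (hyu 0 (by omega))
  have hshape : ∀ j : ℕ, (∀ n : ℤ, g n = 1 ↔ -(j : ℤ) ≤ n ∧ n < 0) →
      (∀ n : ℤ, n < -(j : ℤ) → g n = 0) → s = -i - 1 ∧ j = i := by
    intro j hj1 hj0
    have a1 := (hj1 _).1 (hge 1 le_rfl hi)
    have a2 := (hj1 _).1 (hge i hi le_rfl)
    have a3 : ¬ (((1 + i : ℕ) : ℤ) + s < 0) := by
      intro hlt
      exact hgu.2 ((hj1 _).2 ⟨by push_cast at a2 ⊢; omega, hlt⟩)
    have a4 : ¬ (-(j : ℤ) ≤ s) := by
      intro hle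
      have := (hj1 s).2 ⟨hle, by push_cast at a1; omega⟩
      rw [hg1] at this
      exact absurd this (by decide)
    push_cast at a1 a2 a3
    constructor <;> omega
  rcases hg with ⟨j, u', rfl⟩ | ⟨j, rfl⟩
  · have hj1 : ∀ n : ℤ, gI j u' n = 1 ↔ -(j : ℤ) ≤ n ∧ n < 0 := by
      intro n
      constructor
      · intro hn
        by_contra hcon
        rw [not_and_or, not_le, not_lt] at hcon
        rcases hcon with hcon | hcon
        · rw [gI_left hcon] at hn
          exact absurd hn (by decide)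
        · rcases lt_or_ge n (2 * τ j) with c | c
          · rw [gI_u hcon c] at hn
            revert hn
            cases u' n.toNat <;> decide
          · rw [gI_right c] at hn
            exact absurd hn (by decide)
      · rintro ⟨h1, h2⟩
        exact gI_e h1 h2
    obtain ⟨hs', rfl⟩ := hshape j hj1 fun n hn => gI_left hn
    intro m hm
    have h1 : y (1 + j + m) = if u' m = true then 2 else 4 := by
      rw [hs _ (by omega), gI_u (by push_cast; omega) (by push_cast; omega)]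
      have h2 : (((1 + j + m : ℕ) : ℤ) + s).toNat = m := by omega
      rw [h2]
    rw [h1]
    have h3 := hyu m hm
    rw [h1] at h3
    cases hu : u m <;> cases hu' : u' m <;> simp [hu, hu', d] at h3 ⊢
  · have hj1 : ∀ n : ℤ, gC j n = 1 ↔ -(j : ℤ) ≤ n ∧ n < 0 := by
      intro n
      constructor
      · intro hn
        by_contra hcon
        rw [not_and_or, not_le, not_lt] at hcon
        rcases hcon with hcon | hcon
        · rw [gC_left hcon] at hn
          exact absurd hn (by decide)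
        · rcases lt_or_ge n (τ j) with c | c
          · rw [gC_b hcon c] at hn
            exact absurd hn (by decide)
          · rw [gC_right c] at hn
            exact absurd hn (by decide)
      · rintro ⟨h1, h2⟩
        exact gC_e h1 h2
    obtain ⟨hs', rfl⟩ := hshape j hj1 fun n hn => gC_left hn
    exfalso
    have h1 := hs (1 + j + τ j) (by omega)
    rw [gC_right (by push_cast; omega)] at h1
    exact (hlet _ _ (hyu (τ j) (by omega))).1 h1

lemma le_span {i : ℕ} (hi : 0 < i) : 2 ^ (2 * τ i) ≤ span X d 2 1 (1 + i + 2 * τ i) := by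
  classical
  obtain ⟨S, hS, hcard, hsp⟩ := span_mem (1 + i + 2 * τ i) (by omega)
  rw [← hcard]
  let ex : (Fin (2 * τ i) → Bool) → ℕ → Bool := fun v m => if h : m < 2 * τ i then v ⟨m, h⟩ else false
  have h1 : ∀ v : Fin (2 * τ i) → Bool, ∃ y ∈ S,
      ∀ m < 2 * τ i, y (1 + i + m) = if ex v m = true then 2 else 4 := by
    intro v
    obtain ⟨y, hy, hxy⟩ := hsp _ (mem_X_of_gen (Or.inl ⟨i, ex v, rfl⟩) (-i - 1))
    rw [DT_le_one_iff (by omega)] at hxy
    exact ⟨y, hy, close_unique hi (hS hy) hxy⟩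
  choose f hf hf2 using h1
  have hinj : Function.Injective f := by
    intro v v' h
    funext m
    have a1 := hf2 v m m.2
    have a2 := hf2 v' m m.2
    rw [h, a2] at a1
    have e1 : ex v m = v m := by simp only [ex]; rw [dif_pos m.2]
    have e2 : ex v' m = v' m := by simp only [ex]; rw [dif_pos m.2]
    rw [e1, e2] at a1
    revert a1
    cases v m <;> cases v' m <;> decide
  have h2 := Finset.card_le_card_of_injOn (s := Finset.univ) (t := S) f (fun v _ => hf v)
    hinj.injOn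
  simpa using h2

/-- There are a subshift, a metric on the alphabet, an integer `k > 1` for which `D` is a metric,
and `ε > 0` such that `(P_ε)` fails. -/
theorem result : ∃ (X : Set (ℕ → Fin 5)) (d : Fin 5 → Fin 5 → ℝ) (k : ℕ) (ε : ℝ),
    IsSubshift X ∧ IsMetricOn d univ ∧ 1 < k ∧ IsMetricOn (D d k) X ∧ 0 < ε ∧
    liminf (rate X d k ε) atTop ≠ limsup (rate X d k ε) atTop := by
  refine ⟨X, d, 2, 1, isSubshift_X, metric_d, one_lt_two, metric_D X, one_pos, ?_⟩
  have hl2 : 0 < Real.log 2 := Real.log_pos (by norm_num)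
  apply ne_of_lt
  have h1 : liminf (rate X d 2 1) atTop ≤ ((Real.log 2 / 4 : ℝ) : EReal) := by
    apply liminf_le_of_frequently_le'
    have h2 : Tendsto (fun i : ℕ => ((τ (i + 1) : ℕ) : ℝ)) atTop atTop := by
      apply tendsto_natCast_atTop_atTop.comp
      apply tendsto_atTop_mono (f := fun i => i) _ tendsto_id
      intro i
      have := le_τ (i + 1)
      omega
    have h3 : Tendsto (fun x : ℝ => Real.log (x + 1) / x) atTop (𝓝 0) := by
      have a1 := (Real.isLittleO_log_id_atTop.comp_tendsto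
        (tendsto_atTop_add_const_right atTop (1 : ℝ) tendsto_id)).tendsto_div_nhds_zero
      have a2 : Tendsto (fun x : ℝ => 1 + 1 / x) atTop (𝓝 (1 + 0)) :=
        (tendsto_const_nhds.div_atTop tendsto_id).const_add 1
      have a3 := a1.mul a2
      rw [zero_mul] at a3
      refine a3.congr' ?_
      filter_upwards [eventually_gt_atTop (0 : ℝ)] with x hx
      simp only [Function.comp, id]
      field_simp
    have h4 := (h3.comp h2).eventually (gt_mem_nhds (show (0 : ℝ) < Real.log 2 / 16 by positivity))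
    obtain ⟨i₀, hi₀⟩ := h4.exists_forall_of_atTop
    rw [frequently_atTop]
    intro a
    refine ⟨τ (max a i₀ + 1), ?_, ?_⟩
    · have := le_τ (max a i₀ + 1)
      have := le_max_left a i₀
      omega
    · unfold rate
      rw [EReal.coe_le_coe_iff]
      have h5 := hi₀ (max a i₀) (le_max_right _ _)
      simp only [Function.comp] at h5
      have h6 : (0 : ℝ) < τ (max a i₀ + 1) := by exact_mod_cast τ_pos _
      have h7 : Real.log (span X d 2 1 (τ (max a i₀ + 1))) ≤
          4 * Real.log (τ (max a i₀ + 1) + 1) := by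
        have h8 := span_le (max a i₀)
        rcases Nat.eq_zero_or_pos (span X d 2 1 (τ (max a i₀ + 1))) with h0 | h0
        · rw [h0, Nat.cast_zero, Real.log_zero]
          have : 0 ≤ Real.log ((τ (max a i₀ + 1) : ℝ) + 1) := Real.log_nonneg (by linarith)
          linarith
        · have h9 : ((span X d 2 1 (τ (max a i₀ + 1)) : ℕ) : ℝ) ≤
              ((τ (max a i₀ + 1) : ℝ) + 1) ^ 4 := by exact_mod_cast h8
          have h10 := Real.log_le_log (by exact_mod_cast h0) h9
          rw [Real.log_pow] at h10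
          exact_mod_cast h10
      calc Real.log (span X d 2 1 (τ (max a i₀ + 1))) / (τ (max a i₀ + 1) : ℝ)
          ≤ 4 * Real.log (τ (max a i₀ + 1) + 1) / (τ (max a i₀ + 1) : ℝ) := by gcongr
        _ = 4 * (Real.log (τ (max a i₀ + 1) + 1) / (τ (max a i₀ + 1) : ℝ)) := by ring
        _ ≤ Real.log 2 / 4 := by linarith
  have h2 : ((Real.log 2 / 2 : ℝ) : EReal) ≤ limsup (rate X d 2 1) atTop := by
    apply le_limsup_of_frequently_le'
    rw [frequently_atTop]
    intro a
    refine ⟨1 + (a + 1) + 2 * τ (a + 1), by omega, ?_⟩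
    unfold rate
    rw [EReal.coe_le_coe_iff]
    have h3 := le_span (Nat.succ_pos a)
    have h4 := le_τ (a + 1)
    have h5 : (a + 1 + 1 : ℝ) ≤ τ (a + 1) := by exact_mod_cast h4
    have h6 : (0 : ℝ) < τ (a + 1) := by exact_mod_cast τ_pos _
    have h7 : ((2 : ℝ) ^ (2 * τ (a + 1))) ≤ (span X d 2 1 (1 + (a + 1) + 2 * τ (a + 1)) : ℕ) := by
      exact_mod_cast h3
    have h8 := Real.log_le_log (by positivity) h7
    rw [Real.log_pow] at h8
    push_cast at h8 ⊢
    rw [div_le_div_iff₀ (by norm_num) (by positivity)]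
    nlinarith
  refine lt_of_le_of_lt h1 (lt_of_lt_of_le ?_ h2)
  rw [EReal.coe_lt_coe_iff]
  linarith

end Pool.Agent.Results.MP_6f7bab_an.SpanningRateFails
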